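import Mathlib
import Pool.Agent.TH818.SA.MA2A

set_option autoImplicit false

/-!
# Values of periodic Dirichlet series at even integers and finite-dimensional rational vector spaces

For a periodic sequence `a` of integers the numbers `L(a, i) = ∑ a(n) / n^i`, `i ≥ 2`, are periods of mixed
Tate Nori motives over `ℚ̄` (extensions of `ℚ(0)` by `ℚ(i)`). If `a` is an odd Dirichlet character the values
at even `i` are, like the odd zeta values, not critical, and the period conjecture predicts that they are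
algebraically independent together with `π`.
-/

namespace Pool.Agent.Results.MP_ae0f86_nt.EvenDirichletValues

/-- `L(a, i) = ∑_{n ≥ 1} a(n) / n^i`. -/
noncomputable def L (a : ℕ → ℤ) (i : ℕ) : ℝ := ∑' n : ℕ, (a (n + 1) : ℝ) / ((n : ℝ) + 1) ^ i

/-- `√(s log log s / log s)`. -/
noncomputable def S (s : ℕ) : ℝ := Real.sqrt (s * Real.log (Real.log s) / Real.log s)

/-- **Values of periodic Dirichlet series at even integers.** For every `f ≥ 1` and all large `s`, and for all
`f`-periodic sequences `a` of integers with `a(u) ≠ 0` for some `u` prime to `f`: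
(1) for `1 ≤ D ≤ log log s / 1000` and all large `q` at least `(1 / (2000 f D)) √(s log log s / log s)` of the
even `i ≤ s` satisfy `|q L(a, i) - p| ≥ q ^ (-1/D)` for all integers `p`;
(2) for `1 ≤ D ≤ log log s / 2000` and every rational vector space `V ⊆ ℝ` of dimension at most `D` at least
`(1 / (4000 f D)) √(s log log s / log s)` of the even `i ≤ s` satisfy `L(a, i) ∉ V`;
(3) at least `(1 / (4000 f)) √(s log log s / log s)` of the numbers `L(a, i)`, `i ≤ s` even, are irrational. -/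
theorem result : ∀ f : ℕ, 1 ≤ f → ∃ s0 : ℕ, ∀ s ≥ s0, ∀ a : ℕ → ℤ,
    (∀ u, a (u + f) = a u) → (∃ u, Nat.Coprime u f ∧ a u ≠ 0) →
    (∀ D : ℕ, 1 ≤ D → (D : ℝ) ≤ (1 / 1000) * Real.log (Real.log s) → ∃ q0 : ℕ, ∀ q : ℕ, q0 ≤ q →
      (1 / 2000) / (f * D) * S s ≤
        (Set.ncard {i : ℕ | 2 ≤ i ∧ i ≤ s ∧ Even i ∧ ∀ p : ℤ,
          (q : ℝ) ^ (-(1 / (D : ℝ))) ≤ |(q : ℝ) * L a i - p|} : ℝ)) ∧
    (∀ D : ℕ, 1 ≤ D → (D : ℝ) ≤ (1 / 2000) * Real.log (Real.log s) →
      ∀ V : Submodule ℚ ℝ, FiniteDimensional ℚ V → Module.finrank ℚ V ≤ D →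
      (1 / 4000) / (f * D) * S s ≤
        (Set.ncard {i : ℕ | 2 ≤ i ∧ i ≤ s ∧ Even i ∧ L a i ∉ V} : ℝ)) ∧
    (1 / 4000) / f * S s ≤ (Set.ncard {i : ℕ | 2 ≤ i ∧ i ≤ s ∧ Even i ∧ Irrational (L a i)} : ℝ) := by
  intro f hf
  obtain ⟨s1, h1⟩ := Pool.Agent.TH818.SA.t_finala f hf
  obtain ⟨s2, h2⟩ := Pool.Agent.TH818.SA.t_suba f hf
  have hlim : Filter.Tendsto (fun s : ℕ => Real.log (Real.log (s : ℝ))) Filter.atTop Filter.atTop :=
    Real.tendsto_log_atTop.comp (Real.tendsto_log_atTop.comp tendsto_natCast_atTop_atTop)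
  obtain ⟨s3, h3⟩ := (hlim.eventually_ge_atTop 2000).exists_forall_of_atTop
  refine ⟨max s1 (max s2 s3), fun s hs a hper hau => ⟨?_, ?_, ?_⟩⟩
  · exact h1 s ((le_max_left _ _).trans hs) a hper hau
  · exact h2 s (((le_max_left _ _).trans (le_max_right _ _)).trans hs) a hper hau
  · have hs3 := h3 s (((le_max_right _ _).trans (le_max_right _ _)).trans hs)
    obtain ⟨V, hV⟩ : ∃ V : Submodule ℚ ℝ, V = Submodule.span ℚ {(1 : ℝ)} := ⟨_, rfl⟩
    have hfin : FiniteDimensional ℚ V := by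
      rw [hV]
      exact FiniteDimensional.span_of_finite ℚ (Set.finite_singleton _)
    have hrk : Module.finrank ℚ V ≤ 1 := by
      rw [hV]
      exact (finrank_span_singleton (K := ℚ) (one_ne_zero : (1 : ℝ) ≠ 0)).le
    have h := h2 s (((le_max_left _ _).trans (le_max_right _ _)).trans hs) a hper hau 1 le_rfl
      (by
        push_cast
        linarith) V hfin hrk
    have e : (1 / 4000 : ℝ) / ((f : ℝ) * ((1 : ℕ) : ℝ)) *
        Real.sqrt (s * Real.log (Real.log s) / Real.log s) = (1 / 4000) / f * S s := by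
      unfold S
      push_cast
      rw [mul_one]
    rw [e] at h
    refine h.trans ?_
    apply Nat.cast_le.2
    apply Set.ncard_le_ncard
    · rintro i ⟨a1, a2, a3, a4⟩
      refine ⟨a1, a2, a3, ?_⟩
      rintro ⟨r, hr⟩
      apply a4
      rw [hV, Submodule.mem_span_singleton]
      refine ⟨r, ?_⟩
      rw [Rat.smul_def, mul_one, hr]
      rfl
    · exact (Set.finite_Iic s).subset fun i hi => hi.2.1

end Pool.Agent.Results.MP_ae0f86_nt.EvenDirichletValues
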