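import Pool.Agent.R351.GD.S.AllT
import Pool.Agent.Y916.Sl.Many

/-!
# Integrals of the three kinds on hyperelliptic curves at almost all tuples of algebraic integers of bounded degree:
relations of growing degree over number fields of growing degree

For polynomials `F_a`, `q_a` the primitives `Φ_(a,j)` of `x^j dx / (q_a √F_a)`, `j < deg F_a - 1 + deg q_a`, are integrals
of the three kinds on the curve `C_a : y² = F_a(x)`, with logarithmic poles over the zeros of `q_a`: the generalised
logarithms of the point `(x, √F_a(x)) - ∞` of the generalised Jacobian of `C_a` (a non-split extension of the Jacobian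
by a torus in general) and of its universal vector extension, that is periods of 1-motives. The theorem: the proportion,
among the `k`-tuples of algebraic integers `α_i` of degree at most `m` with conjugates at most `T` (each in its own
number field), of those for which the generalised logarithms of the points over all `α_i + θ_j`, for all the curves, along
any paths, the logarithms of the `α_i + θ_j` and the given numbers `w` satisfy a nontrivial relation of degree at most `δ`
over a number field of degree at most `δ`, is at most `C T^(-1/(δ + 2)^C)`, where `C` does not depend on `δ`, `T` and `w`. In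
particular for almost all tuples there is no such relation with `δ` up to a fixed power of `log T / log log T`.

The proof follows the starting library (`MP_ae0f86_nt.BoundedDegreeOneMotives`, project SL: helper333, helper968,
helper737 and the libraries they use), with polynomial bounds in `δ` at every step: the constants of the G-systems of the
monomials of degree at most `D`, the auxiliary degree `D`, the elimination of the constants by Hilbert functions, and the
induction on the number of the points.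
-/

set_option autoImplicit false

namespace Pool.Agent.Results.MP_ae0f86_nt.GrowingDegreeTuples

/-- The algebraic integers of degree at most `m` all of whose conjugates have absolute value at most `T`. -/
def integers (m T : ℕ) : Set ℂ :=
  {α | IsIntegral ℤ α ∧ (minpoly ℚ α).natDegree ≤ m ∧ ∀ z : ℂ, Polynomial.aeval z (minpoly ℚ α) = 0 → ‖z‖ ≤ T}

/-- The indices `(a, j)`, `j < deg F_a - 1 + deg q_a`, of the differentials. -/
abbrev Idx {s : ℕ} (F q : Fin s → Polynomial ℤ) : Type := Σ a, Fin ((F a).natDegree - 1 + (q a).natDegree)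

/-- The plane without the disc of radius `R` and the ray `- u [0, ∞)`. -/
def Domain (u : ℂ) (R : ℝ) : Set ℂ := {x | R < ‖x‖ ∧ x / u ∈ Complex.slitPlane}

/-- On the domain `S_a` is a continuous square root of `F_a` and `Φ_(a,j)` a primitive of `x^j / (q_a S_a)`. -/
def Primitives {s : ℕ} (F q : Fin s → Polynomial ℤ) (u : ℂ) (R : ℝ) (S : Fin s → ℂ → ℂ) (Φ : Idx F q → ℂ → ℂ) : Prop :=
  ∀ x ∈ Domain u R, (∀ a, ContinuousAt (S a) x ∧ S a x ^ 2 = Polynomial.aeval x (F a)) ∧
    ∀ p : Idx F q, HasDerivAt (Φ p) (x ^ (p.2 : ℕ) / (Polynomial.aeval x (q p.1) * S p.1 x)) x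

/-- The numbers `Φ_(a,j)(x)` and `log x`. -/
noncomputable def number {s : ℕ} {F q : Fin s → Polynomial ℤ} (Φ : Idx F q → ℂ → ℂ) (x : ℂ) : Idx F q ⊕ Unit → ℂ
  | Sum.inl p => Φ p x
  | Sum.inr _ => Complex.log x

/-- There are a number field `K` of degree at most `δ`, numbers `y`, equal to nonzero `K`-multiples of the numbers `x`
plus elements of `K + ∑ K w_j`, and a polynomial `P` over `K` of total degree at most `δ` with `P(w, y) = 0` such that
`P(w, Y)` is not the zero polynomial in `Y`. -/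
def Related {ι : Type} {Q : ℕ} (δ : ℕ) (w : Fin Q → ℂ) (x : ι → ℂ) : Prop :=
  ∃ K : IntermediateField ℚ ℂ, FiniteDimensional ℚ K ∧ Module.finrank ℚ K ≤ δ ∧ ∃ y : ι → ℂ,
    (∀ p, ∃ b : K, b ≠ 0 ∧ y p - b * x p ∈ Submodule.span K (insert 1 (Set.range w))) ∧
    ∃ P : MvPolynomial (Fin Q ⊕ ι) K, P.totalDegree ≤ δ ∧ MvPolynomial.aeval (Sum.elim w y) P = 0 ∧
      MvPolynomial.aeval (Sum.elim (fun j => MvPolynomial.C (w j)) MvPolynomial.X) P ≠ (0 : MvPolynomial ι ℂ)

/-- Let `F_a`, `q_a` be integral polynomials with positive leading coefficients such that `F_a q_a` is squarefree,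
`deg F_a` is odd, `deg F_a + 2 deg q_a ≥ 3` and no `F_a` is proportional to an integral translate of another `F_b`, and
let `Φ` be primitives of the differentials `x^j dx / (q_a √F_a)` on a domain as above. Let `m ≥ 1` and let
`θ_1, …, θ_r` be distinct natural numbers. For all `k`, `Q` there is `C` such that for all `δ`, all `w_1, …, w_Q ∈ ℂ` and
all `T ≥ 1`, among all `k`-tuples of algebraic integers of degree at most `m` with conjugates at most `T`, the proportion
of those such that all the points `α_i + θ_j` are in the domain and the numbers at these points are related is at most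
`C T^(-1/(δ + 2)^C)`. -/
theorem result {s : ℕ} (F q : Fin s → Polynomial ℤ)
    (hsf : ∀ a, Squarefree ((F a * q a).map (Int.castRingHom ℚ))) (hodd : ∀ a, Odd (F a).natDegree)
    (hdeg : ∀ a, 3 ≤ (F a).natDegree + 2 * (q a).natDegree)
    (hpos : ∀ a, 0 < (F a).leadingCoeff ∧ 0 < (q a).leadingCoeff)
    (hdist : ∀ a b, a ≠ b → ∀ h c₁ c₂ : ℤ, c₁ ≠ 0 → c₂ ≠ 0 →
      Polynomial.C c₁ * F a ≠ Polynomial.C c₂ * (F b).comp (Polynomial.X + Polynomial.C h))
    (u : ℂ) (hu : u ≠ 0) (R : ℝ) (S : Fin s → ℂ → ℂ) (Φ : Idx F q → ℂ → ℂ) (hΦ : Primitives F q u R S Φ)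
    (m : ℕ) (hm : 1 ≤ m) {r : ℕ} (θ : Fin r → ℕ) (hθ : Function.Injective θ) (k Q : ℕ) :
    ∃ C : ℕ, ∀ (δ : ℕ) (w : Fin Q → ℂ) (T : ℕ), 1 ≤ T →
      (integers m T).Finite ∧
      ({α : Fin k → ℂ | (∀ i, α i ∈ integers m T) ∧ (∀ i j, α i + θ j ∈ Domain u R) ∧ Related δ w
        fun p : (Fin k × Fin r) × (Idx F q ⊕ Unit) => number Φ (α p.1.1 + θ p.1.2) p.2}.ncard : ℝ) ≤
        C * (T : ℝ) ^ (-(1 / ((δ : ℝ) + 2) ^ C)) * ((integers m T).ncard : ℝ) ^ k := by
  have hG : ∀ a, Pool.Agent.Y916.Sa.GoodP (F a) (q a) := by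
    intro a
    have h := hsf a
    rw [Polynomial.map_mul, squarefree_mul_iff] at h
    exact ⟨h.2.1, hodd a, (hpos a).1, h.2.2, (hpos a).2, h.1.isCoprime, hdeg a⟩
  have hx : ∀ (x : ℂ) i, number Φ x i = Pool.Agent.Y916.Sl.xP F q Φ x i := by
    rintro x (p | w) <;> rfl
  simp only [hx]
  obtain ⟨c₁, hc₁, h₁⟩ := Pool.Agent.Y916.Sl.many m hm
  obtain ⟨C, h⟩ := Pool.Agent.R351.GD.tuplesD_exp Pool.Agent.Y916.Sl.tQ
    Pool.Agent.Y916.Sl.tP F q hG (fun a b hab h c₁ c₂ => hdist a b hab h c₁ c₂) hu (R := R) (S := S) (Φ := Φ)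
    (fun x hx1 hx2 => hΦ x ⟨hx1, hx2⟩) m θ hθ k Q
  obtain ⟨C', hC'⟩ := exists_nat_ge ((C : ℝ) / c₁ ^ k)
  refine ⟨C + C', fun δ w T hT => ⟨Pool.Agent.Y916.Sl.sint_fin m T, ?_⟩⟩
  obtain ⟨hf, hle⟩ := h δ w T hT
  have hT1 : (1 : ℝ) ≤ T := by exact_mod_cast hT
  have h2 := hle.trans (Pool.Agent.Y916.Sl.prop_bound hc₁ (Nat.cast_nonneg C) hT (h₁ T hT))
  refine le_trans ?_ (h2.trans ?_)
  · refine Nat.cast_le.2 (Set.ncard_le_ncard ?_ hf)
    rintro α ⟨hα1, hα2, hα3⟩
    exact ⟨fun i => Pool.Agent.Y916.Sl.SInt.aint (hα1 i), hα2, hα3⟩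
  · have hδ : (1 : ℝ) ≤ (δ : ℝ) + 2 := by
      have : (0 : ℝ) ≤ δ := Nat.cast_nonneg δ
      linarith
    have h3 : 1 / ((δ : ℝ) + 2) ^ (C + C') ≤ 1 / ((δ : ℝ) + 2) ^ C :=
      one_div_le_one_div_of_le (by positivity) (pow_le_pow_right₀ hδ (Nat.le_add_right _ _))
    have h4 : (T : ℝ) ^ (-(1 / ((δ : ℝ) + 2) ^ C)) ≤ (T : ℝ) ^ (-(1 / ((δ : ℝ) + 2) ^ (C + C'))) :=
      Real.rpow_le_rpow_of_exponent_le hT1 (by linarith)
    have h5 : (C : ℝ) / c₁ ^ k ≤ ((C + C' : ℕ) : ℝ) := by
      push_cast
      have : (0 : ℝ) ≤ C := Nat.cast_nonneg C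
      linarith
    refine mul_le_mul_of_nonneg_right ?_ (by positivity)
    exact mul_le_mul h5 h4 (by positivity) (Nat.cast_nonneg _)

end Pool.Agent.Results.MP_ae0f86_nt.GrowingDegreeTuples
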