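import Pool.Agent.R349.Short2
import Pool.Agent.Y776.Fam.MainT
import Pool.Agent.TH813.EKPer

/-!
# The period conjecture for families of 1-motives and iterated integrals: a bounded number of exceptions in small discs

Let `E_z : y² = 4 x³ - g₂(z) x - g₃(z)` be a family of elliptic curves whose invariants are algebraic functions of `z`
and whose `j` is not constant, and let `P_1, …, P_r` be algebraic sections which are independent modulo torsion. Let
further `t_1, …, t_s` be a tower of integrals: the derivative of `t_k` is algebraic over `ℂ(z, t_1, …, t_(k-1))`, and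
the functions `z, t_1, …, t_s` are algebraically independent. Examples are integrals of the first, second and third kind
on any curves which do not depend on `z`, between points depending on `z`, logarithms of algebraic functions, and all
iterated integrals of algebraic differentials, for instance multiple polylogarithms (periods of mixed Tate motives).
Then `ω₁, ω₂, η₁` (`η₂` is determined by Legendre's relation), the elliptic logarithms `u_i` of `P_i`, the integrals of
the second kind `ζ(u_i)`, the integrals of the third kind `S_k = log σ(∑ N_i u_i)` and `t_k` are built from periods of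
Nori motives `M_z` over the field generated by `z`, and the conjecture for these motives says that in general the
`3 + 2 r + s + q` numbers are algebraically independent also from `π`.

We show that this is true in bounded degree and height at algebraic points `x`, with **at most `C` exceptions `x` in each
disc of radius `T ^ (-δ)`**, `T` the height of `x` and `δ > 0` arbitrary: let `X_1, …, X_n` be finite sets of elements
`x` of a number field `F` of degree at most `m`, of height at most `T`, with images in compact sets `K_j`, each of the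
`X_j` of diameter at most `T ^ (-δ)`; for instance all elements of `X_j` can be fractions with one fixed denominator `T`.
For `n` families and the tuples of `X_1 × … × X_n` all but `C ∑_j ∏_(i ≠ j) |X_i|` tuples are good, and there is a good
one if all `|X_j| > C`. Good means that the `∑ (3 + 2 r_j + s_j + q_j)` numbers satisfy no approximate relation of degree
at most `d` and height at most `T ^ A` whose coefficients are combinations of given complex numbers `ξ_1, …, ξ_g`, for
instance of monomials in the periods of another motive, and together with `π` no relation over `F`.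

The starting result `MP_ae0f86_nt.OneMotivesAndTowers` has `C T ^ ε` exceptions per fibre among all points of height at
most `T`, which says nothing about a small disc or about fractions with one fixed denominator; it is not used. The proof
uses an Ax-Schanuel theorem for these families, relative to countable fields of constants
(`Pool.Agent.Y776.Fam.fam_locIndT`), and a determinant method for small discs (`Pool.Agent.R349.Gen.shortS`).
-/

set_option autoImplicit false

open NumberField
open scoped PeriodPair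

namespace Pool.Agent.Results.MP_ae0f86_nt.SmallDiscs

/-- The Weierstrass zeta function `ζ(z) = ∑ (1/(z-l) + 1/l + z/l²)`, the sum over the lattice (the summand of `l = 0` is
`1/z`, since `1/0 = 0` in Lean). -/
noncomputable def ζ (L : PeriodPair) (z : ℂ) : ℂ :=
  ∑' l : L.lattice, (1 / (z - l) + 1 / l + z / l ^ 2)

/-- The Weierstrass sigma function `σ(z) = z ∏ (1 - z/l) exp(z/l + z²/(2 l²))`, the product over the lattice (the factor
of `l = 0` is `1`, since `z/0 = 0` in Lean). -/
noncomputable def σ (L : PeriodPair) (z : ℂ) : ℂ :=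
  z * ∏' l : L.lattice, ((1 - z / l) * Complex.exp (z / l + (z / l) ^ 2 / 2))

/-- The function `f` is algebraic over `ℂ(z)` on the set `U`. -/
def Algebraic (U : Set ℂ) (f : ℂ → ℂ) : Prop :=
  ∃ P : MvPolynomial (Fin 2) ℂ, P ≠ 0 ∧ ∀ z ∈ U, MvPolynomial.eval ![z, f z] P = 0

/-- A family of elliptic curves `ℂ / Λ_z` with points `P_i = (℘(u_i), ℘'(u_i))`, a tower of functions `t_k`, and
branches `S_k` of `log σ(∑ N_ki u_i)`. -/
structure Family (U : Set ℂ) (Λ : ℂ → PeriodPair) {r s q : ℕ} (u : Fin r → ℂ → ℂ) (t : Fin s → ℂ → ℂ)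
    (N : Fin q → Fin r → ℤ) (S : Fin q → ℂ → ℂ) : Prop where
  isOpen : IsOpen U
  isPreconnected : IsPreconnected U
  /-- the lattice depends analytically on `z` -/
  analytic₁ : AnalyticOnNhd ℂ (fun z => (Λ z).ω₁) U
  analytic₂ : AnalyticOnNhd ℂ (fun z => (Λ z).ω₂) U
  /-- the invariants are algebraic functions -/
  algebraic₂ : Algebraic U (fun z => (Λ z).g₂)
  algebraic₃ : Algebraic U (fun z => (Λ z).g₃)
  /-- `j` is not constant: `g₂³` and `g₃²` are linearly independent -/
  nonconstant : ∀ a b : ℂ, (∀ z ∈ U, a * (Λ z).g₂ ^ 3 = b * (Λ z).g₃ ^ 2) → a = 0 ∧ b = 0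
  /-- the points are given by analytic functions `u_i`; they are not zero and their coordinates are algebraic -/
  point : ∀ i, AnalyticOnNhd ℂ (u i) U
  point_ne : ∀ i, ∀ z ∈ U, u i z ∉ (Λ z).lattice
  point_alg : ∀ i, Algebraic U (fun z => ℘[Λ z] (u i z))
  /-- the points are independent modulo torsion -/
  point_ind : ∀ n : Fin r → ℤ, (∀ z ∈ U, ∑ i, (n i : ℂ) * u i z ∈ (Λ z).lattice) → n = 0
  /-- the derivative of the analytic function `t_k` is algebraic over `ℂ(z, t_1, …, t_(k-1))`: there is a nonzero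
  polynomial relation between `z`, the derivative, and `t_1, …, t_(k-1)` -/
  tower : ∀ k, AnalyticOnNhd ℂ (t k) U
  tower_deriv : ∀ k : Fin s, ∃ P : MvPolynomial (Fin 2 ⊕ Fin k) ℂ, P ≠ 0 ∧ ∀ z ∈ U,
    MvPolynomial.eval (Sum.elim ![z, deriv (t k) z] (fun j => t (Fin.castLE k.isLt.le j) z)) P = 0
  /-- the functions `z, t_1, …, t_s` are algebraically independent over `ℂ` -/
  tower_ind : ∀ P : MvPolynomial (Option (Fin s)) ℂ,
    (∀ z ∈ U, MvPolynomial.eval (fun o : Option (Fin s) => o.elim z (fun k => t k z)) P = 0) → P = 0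
  /-- `S_k` is a logarithm of `σ(∑ N_ki u_i)` -/
  sigma : ∀ k, AnalyticOnNhd ℂ (S k) U
  sigma_exp : ∀ k, ∀ z ∈ U, Complex.exp (S k z) = σ (Λ z) (∑ i, (N k i : ℂ) * u i z)
  /-- the quadratic forms `(∑ N_ki X_i)²` are linearly independent -/
  sigma_ind : ∀ c : Fin q → ℤ, (∀ i j, ∑ k, c k * (N k i * N k j) = 0) → c = 0

/-- The numbers `ω₁, ω₂, η₁ = 2 ζ(ω₁ / 2), u_i, ζ(u_i), t_k, S_k` at the point `z`. -/
noncomputable def periods (Λ : ℂ → PeriodPair) {r s q : ℕ} (u : Fin r → ℂ → ℂ) (t : Fin s → ℂ → ℂ)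
    (S : Fin q → ℂ → ℂ) (z : ℂ) : Fin 3 ⊕ (Fin r ⊕ (Fin r ⊕ (Fin s ⊕ Fin q))) → ℂ :=
  Sum.elim ![(Λ z).ω₁, (Λ z).ω₂, 2 * ζ (Λ z) ((Λ z).ω₁ / 2)] (Sum.elim (fun i => u i z)
    (Sum.elim (fun i => ζ (Λ z) (u i z)) (Sum.elim (fun k => t k z) (fun k => S k z))))

/-- The polynomials of degree at most `d` in each variable, all of whose coefficients are of the form `∑ ξ_i ι(c_i)`, where
the `c_i` are integers of the number field `F` all of whose conjugates have absolute value at most `H`. -/
def Admissible {σ : Type} {g : ℕ} (F : Type) [Field F] [NumberField F] (ι : F →+* ℂ) (ξ : Fin g → ℂ) (d : ℕ) (H : ℝ)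
    (P : MvPolynomial σ ℂ) : Prop :=
  (∀ y, P.degreeOf y ≤ d) ∧
    ∀ s, ∃ c : Fin g → 𝓞 F, (∀ i (φ : F →+* ℂ), ‖φ (c i)‖ ≤ H) ∧ P.coeff s = ∑ i, ξ i * ι (c i)

/-- The complex numbers `v` are good: every admissible polynomial takes at them a value which is at least `δ` times each of
its coefficients, and `π` and these numbers satisfy no relation `Q = 0` with a nonzero polynomial `Q` of degree at most `d`
in each variable whose coefficients are integers of `F` with conjugates of absolute value at most `H`. -/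
def Good {σ : Type} {g : ℕ} (F : Type) [Field F] [NumberField F] (ι : F →+* ℂ) (ξ : Fin g → ℂ) (d : ℕ)
    (H δ : ℝ) (v : σ → ℂ) : Prop :=
  (∀ P : MvPolynomial σ ℂ, Admissible F ι ξ d H P → ∀ s, δ * ‖P.coeff s‖ ≤ ‖MvPolynomial.aeval v P‖) ∧
  ∀ Q : MvPolynomial (Option σ) (𝓞 F), Q ≠ 0 → (∀ x, Q.degreeOf x ≤ d) →
    (∀ s (φ : F →+* ℂ), ‖φ ((Q.coeff s : 𝓞 F) : F)‖ ≤ H) →
    MvPolynomial.eval₂ (ι.comp (algebraMap (𝓞 F) F)) (fun o => o.elim (Real.pi : ℂ) v) Q ≠ 0

/-- The element `x` of `F` is a quotient of integers all of whose conjugates have absolute value at most `T`. -/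
def HeightLe (F : Type) [Field F] [NumberField F] (T : ℝ) (x : F) : Prop :=
  ∃ a b : 𝓞 F, b ≠ 0 ∧ (∀ φ : F →+* ℂ, ‖φ a‖ ≤ T ∧ ‖φ b‖ ≤ T) ∧ x = a / b

/-- For `n` families (equal or different) of different shapes on `V_j`, compact sets `K_j` in `V_j`, and all `m`, `g`,
`d`, `A` and `δ > 0` there are `B`, `C`, `T₀` with the property stated above. -/
theorem result {n : ℕ} {r s q : Fin n → ℕ} (V : Fin n → Set ℂ) (Λ : Fin n → ℂ → PeriodPair)
    (u : ∀ j, Fin (r j) → ℂ → ℂ) (t : ∀ j, Fin (s j) → ℂ → ℂ) (N : ∀ j, Fin (q j) → Fin (r j) → ℤ)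
    (S : ∀ j, Fin (q j) → ℂ → ℂ) (hV : ∀ j, Family (V j) (Λ j) (u j) (t j) (N j) (S j))
    (K : Fin n → Set ℂ) (hK : ∀ j, IsCompact (K j)) (hKV : ∀ j, K j ⊆ V j) (m g d : ℕ) (A δ : ℝ) (hδ : 0 < δ) :
    ∃ (B : ℝ) (C : ℕ) (T₀ : ℝ), ∀ (F : Type) [Field F] [NumberField F], Module.finrank ℚ F ≤ m →
      ∀ (ι : F →+* ℂ) (ξ : Fin g → ℂ) (T : ℝ), T₀ ≤ T → ∀ X : Fin n → Finset F,
        (∀ j, ∀ x ∈ X j, ι x ∈ K j ∧ HeightLe F T x) → (∀ j, ∀ x ∈ X j, ∀ y ∈ X j, ‖ι x - ι y‖ ≤ T ^ (-δ)) →
        (({x : Fin n → F | (∀ j, x j ∈ X j) ∧ ¬ Good F ι ξ d (T ^ A) (T ^ (-B))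
          (fun k : Σ j, (Fin 3 ⊕ (Fin (r j) ⊕ (Fin (r j) ⊕ (Fin (s j) ⊕ Fin (q j))))) =>
            periods (Λ k.1) (u k.1) (t k.1) (S k.1) (ι (x k.1)) k.2)}.ncard : ℝ) ≤
          C * ∑ j, ∏ i ∈ Finset.univ.erase j, ((X i).card : ℝ)) ∧
        ((∀ j, C < (X j).card) → ∃ x : Fin n → F, (∀ j, x j ∈ X j) ∧ Good F ι ξ d (T ^ A) (T ^ (-B))
          (fun k : Σ j, (Fin 3 ⊕ (Fin (r j) ⊕ (Fin (r j) ⊕ (Fin (s j) ⊕ Fin (q j))))) =>
            periods (Λ k.1) (u k.1) (t k.1) (S k.1) (ι (x k.1)) k.2)) := by
  classical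
  have hF : ∀ j, Y776.Fam.FmT (V j) (Λ j) (u j) (t j) (N j) (S j) := fun j =>
    ⟨{ isOpen := (hV j).isOpen, conn := (hV j).isPreconnected, an₁ := (hV j).analytic₁, an₂ := (hV j).analytic₂
       ni := (hV j).nonconstant, ag2 := (hV j).algebraic₂, ag3 := (hV j).algebraic₃, ua := (hV j).point
       un := (hV j).point_ne, uw := (hV j).point_alg, ui := (hV j).point_ind, la := fun k => k.elim0
       le := fun k => k.elim0, li := fun _ _ _ => Subsingleton.elim _ _
       Sa := (hV j).sigma, Se := (hV j).sigma_exp, Ni := (hV j).sigma_ind },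
      (hV j).tower, (hV j).tower_deriv, (hV j).tower_ind⟩
  have hper : ∀ j i, (fun z => periods (Λ j) (u j) (t j) (S j) z i) = Y776.Fam.yfam (Λ j) (u j) (t j) (S j) i := by
    intro j i
    funext z
    rcases i with a | i | i | k | k
    · fin_cases a
      · rfl
      · rfl
      · exact (Pool.Agent.TH813.Ell.eta_half (Λ j z).ω₁_mem_lattice (Pool.Agent.TH813.Ell.half₁ (Λ j z))).symm
    all_goals rfl
  exact Pool.Agent.R349.Gen.shortS m n g d
    (κ := fun j => Fin 3 ⊕ (Fin (r j) ⊕ (Fin (r j) ⊕ (Fin (s j) ⊕ Fin (q j))))) (fun j => (hV j).isOpen)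
    (fun j => (hV j).isPreconnected) (fun j k z => periods (Λ j) (u j) (t j) (S j) z k)
    (fun j k => by
      rw [hper j k]
      exact Y776.Fam.yfam_anT (hF j) k)
    (fun j t' ht => by
      have h1 : (fun k z => periods (Λ j) (u j) (t j) (S j) z k) = Y776.Fam.yfam (Λ j) (u j) (t j) (S j) :=
        funext fun k => hper j k
      rw [h1]
      exact Y776.Fam.fam_locIndT (hF j) ht) K hK hKV A δ hδ

end Pool.Agent.Results.MP_ae0f86_nt.SmallDiscs
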